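import Pool.Agent.W455.EM.Stm
import Pool.Agent.H115R4.Stubs
import Pool.Agent.W163.CF.Defs

/-!
# EM-LPD: an almost optimal cover of the edges without heavy pairs
-/

set_option autoImplicit false

namespace Pool.Agent.W253.EM.LPD

open Finset Pool.Agent.FracEM.PMT

theorem sum_dite_sub {α : Type} [Fintype α] (p : α → Prop) [DecidablePred p]
    (f : {x // p x} → ℝ) :
    ∑ x, (if h : p x then f ⟨x, h⟩ else 0) = ∑ x : {x // p x}, f x := by
  classical
  have h1 : ∑ x, (if h : p x then f ⟨x, h⟩ else 0) =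
      ∑ x ∈ univ.filter p, (if h : p x then f ⟨x, h⟩ else 0) := by
    rw [Finset.sum_filter]
    refine Finset.sum_congr rfl fun x _ => ?_
    by_cases h : p x
    · simp [h]
    · simp [h]
  rw [h1, Finset.sum_subtype (univ.filter p) (p := p) (by simp)]
  refine Finset.sum_congr rfl fun x _ => ?_
  rw [dif_pos x.2]

theorem lpd_of (hn : H115R4.nibble) (hd : Pool.Agent.W163.CF.S1) :
    Pool.Agent.W455.EM.S_LPD := by
  classical
  intro k hk η hη
  obtain ⟨θ, hθ0, hθ4, hθη⟩ : ∃ θ : ℝ, 0 < θ ∧ θ ≤ 1 / 4 ∧ 4 * θ ≤ η :=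
    ⟨min (η / 4) (1 / 4), lt_min (by positivity) (by norm_num), min_le_right _ _, by
      have := min_le_left (η / 4) (1 / 4)
      linarith⟩
  have hθ1 : 0 < 1 - θ := by linarith
  have hkey : 1 ≤ (1 + η) * ((1 - θ) * (1 - θ)) := by
    have h1 : 1 ≤ (1 + 4 * θ) * ((1 - θ) * (1 - θ)) := by
      have h2 : 0 ≤ 1 - 4 * θ := by linarith
      nlinarith [mul_nonneg hθ0.le h2, mul_nonneg hθ0.le (mul_nonneg hθ0.le hθ0.le)]
    have h3 : 0 ≤ (1 - θ) * (1 - θ) := by positivity
    nlinarith [mul_nonneg (by linarith : (0 : ℝ) ≤ η - 4 * θ) h3]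
  obtain ⟨κ, hκ, hnib⟩ := hn k θ hθ0
  have hk0 : (0 : ℝ) < k := by
    have : 0 < k := by omega
    exact_mod_cast this
  have hh : 0 < κ * θ / (k : ℝ) ^ 2 := by positivity
  refine ⟨(k : ℝ) ^ 2 / (κ * θ), by positivity, ?_⟩
  intro n W H hcard hsub m hm
  -- the linear program
  obtain ⟨y0, w, hy0, hw, hcov, hload, hsum⟩ := hd
    ({v // v ∈ W} ⊕ {p : Fin n × Fin n // p.1 ≠ p.2 ∧ p.1 ∈ W ∧ p.2 ∈ W}) {e // e ∈ H}
    (Sum.elim (fun v e => if v.1 ∈ e.1 then 1 else 0)
      (fun p e => if p.1.1 ∈ e.1 ∧ p.1.2 ∈ e.1 then 1 / κ else 0))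
    (by
      rintro (v | p) e
      · simp only [Sum.elim_inl]; split_ifs <;> norm_num
      · simp only [Sum.elim_inr]; split_ifs
        · positivity
        · exact le_rfl)
    (by
      rintro ⟨e, he⟩
      have hne : e.Nonempty := by
        rw [← Finset.card_pos, hcard e he]; omega
      obtain ⟨v, hv⟩ := hne
      refine ⟨Sum.inl ⟨v, hsub e he hv⟩, ?_⟩
      simp [hv])
  rw [Fintype.sum_sum_type] at hsum
  have hcov' : ∀ e : {e // e ∈ H},
      1 ≤ (∑ v : {v // v ∈ W}, y0 (Sum.inl v) * (if v.1 ∈ e.1 then 1 else 0)) +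
        ∑ p : {p : Fin n × Fin n // p.1 ≠ p.2 ∧ p.1 ∈ W ∧ p.2 ∈ W},
          y0 (Sum.inr p) * (if p.1.1 ∈ e.1 ∧ p.1.2 ∈ e.1 then 1 / κ else 0) := by
    intro e
    have := hcov e
    rw [Fintype.sum_sum_type] at this
    simpa only [Sum.elim_inl, Sum.elim_inr] using this
  have hl1 : ∀ v : {v // v ∈ W}, ∑ e : {e // e ∈ H}, w e * (if v.1 ∈ e.1 then 1 else 0) ≤ 1 := by
    intro v
    simpa only [Sum.elim_inl] using hload (Sum.inl v)
  have hl2 : ∀ p : {p : Fin n × Fin n // p.1 ≠ p.2 ∧ p.1 ∈ W ∧ p.2 ∈ W},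
      ∑ e : {e // e ∈ H}, w e * (if p.1.1 ∈ e.1 ∧ p.1.2 ∈ e.1 then 1 / κ else 0) ≤ 1 := by
    intro p
    simpa only [Sum.elim_inr] using hload (Sum.inr p)
  -- the nibble
  have hcod : ∀ u v : Fin n, u ≠ v →
      ∑ e ∈ (univ : Finset {e // e ∈ H}).filter (fun e => u ∈ e.1 ∧ v ∈ e.1), w e ≤ κ := by
    intro u v huv
    by_cases hW : u ∈ W ∧ v ∈ W
    · have h1 := hl2 ⟨(u, v), huv, hW.1, hW.2⟩
      have h2 : ∑ e : {e // e ∈ H}, w e * (if u ∈ e.1 ∧ v ∈ e.1 then 1 / κ else 0) =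
          (∑ e ∈ (univ : Finset {e // e ∈ H}).filter (fun e => u ∈ e.1 ∧ v ∈ e.1), w e) *
            (1 / κ) := by
        rw [Finset.sum_mul, Finset.sum_filter]
        refine Finset.sum_congr rfl fun e _ => ?_
        split_ifs
        · rfl
        · simp
      have h3 : (∑ e ∈ (univ : Finset {e // e ∈ H}).filter (fun e => u ∈ e.1 ∧ v ∈ e.1), w e) *
            (1 / κ) ≤ 1 := by
        rw [← h2]; exact h1
      rw [mul_one_div, div_le_one hκ] at h3
      exact h3
    · rw [Finset.filter_false_of_mem]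
      · simpa using hκ.le
      · intro e _ he
        exact hW ⟨hsub e.1 e.2 he.1, hsub e.1 e.2 he.2⟩
  obtain ⟨M, hM1, -, hM3⟩ := hnib {e // e ∈ H} (Fin n) (fun e => e.1) w hw
    (by
      intro e
      rw [← Finset.card_pos, hcard e.1 e.2]; omega)
    (fun e => (hcard e.1 e.2).le)
    (by
      intro v
      by_cases hv : v ∈ W
      · have h1 := hl1 ⟨v, hv⟩
        rw [Finset.sum_filter]
        calc _ = ∑ e : {e // e ∈ H}, w e * (if v ∈ e.1 then 1 else 0) := by
              refine Finset.sum_congr rfl fun e _ => ?_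
              split_ifs <;> simp
          _ ≤ 1 := h1
      · rw [Finset.filter_false_of_mem]
        · simp
        · intro e _ he
          exact hv (hsub e.1 e.2 he))
    hcod
    (by
      intro e
      have h1 : 1 < e.1.card := by rw [hcard e.1 e.2]; omega
      obtain ⟨u, hu, v, hv, huv⟩ := Finset.one_lt_card.mp h1
      refine le_trans ?_ (hcod u v huv)
      exact Finset.single_le_sum (f := w) (fun i _ => hw i)
        (Finset.mem_filter.mpr ⟨Finset.mem_univ e, hu, hv⟩))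
  have hMm : (M.card : ℝ) ≤ m := by
    have h1 := hm (M.map ⟨Subtype.val, Subtype.val_injective⟩)
      (by
        intro e he
        rw [Finset.mem_map] at he
        obtain ⟨x, -, rfl⟩ := he
        exact x.2)
      (by
        intro e he e' he' hne
        rw [Finset.mem_map] at he he'
        obtain ⟨x, hx, rfl⟩ := he
        obtain ⟨x', hx', rfl⟩ := he'
        exact hM1 x hx x' hx' (fun h => hne (by rw [h])))
    rwa [Finset.card_map] at h1
  -- total weight
  set τ : ℝ := ∑ e : {e // e ∈ H}, w e with hτ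
  have hτm : (1 - θ) * τ ≤ m := hM3.trans hMm
  have hτ0 : 0 ≤ τ := Finset.sum_nonneg fun e _ => hw e
  have hm0 : 0 ≤ m := le_trans (mul_nonneg hθ1.le hτ0) hτm
  have hτW : τ ≤ W.card := by
    calc τ ≤ ∑ e : {e // e ∈ H}, ∑ v : {v // v ∈ W}, w e * (if v.1 ∈ e.1 then 1 else 0) := by
          refine Finset.sum_le_sum fun e _ => ?_
          have hne : e.1.Nonempty := by
            rw [← Finset.card_pos, hcard e.1 e.2]; omega
          obtain ⟨v, hv⟩ := hne
          calc w e = w e * (if ((⟨v, hsub e.1 e.2 hv⟩ : {v // v ∈ W}) : Fin n) ∈ e.1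
                then 1 else 0) := by simp [hv]
            _ ≤ _ := Finset.single_le_sum
                (f := fun v : {v // v ∈ W} => w e * (if v.1 ∈ e.1 then (1 : ℝ) else 0))
                (fun i _ => mul_nonneg (hw e) (by split_ifs <;> norm_num)) (Finset.mem_univ _)
      _ = ∑ v : {v // v ∈ W}, ∑ e : {e // e ∈ H}, w e * (if v.1 ∈ e.1 then 1 else 0) :=
          Finset.sum_comm
      _ ≤ ∑ v : {v // v ∈ W}, (1 : ℝ) := Finset.sum_le_sum fun v _ => hl1 v
      _ = W.card := by simp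
  -- the cover
  set u : Fin n → ℝ := fun v => if h : v ∈ W then y0 (Sum.inl ⟨v, h⟩) else 0 with hu
  set z : Fin n × Fin n → ℝ := fun p =>
    if h : p.1 ≠ p.2 ∧ p.1 ∈ W ∧ p.2 ∈ W then y0 (Sum.inr ⟨p, h⟩) else 0 with hz
  have hu0 : ∀ v, 0 ≤ u v := by
    intro v
    simp only [hu]
    split_ifs
    · exact hy0 _
    · exact le_rfl
  have hz0 : ∀ p, 0 ≤ z p := by
    intro p
    simp only [hz]
    split_ifs
    · exact hy0 _
    · exact le_rfl
  have huS : ∑ v ∈ W, u v = ∑ v : {v // v ∈ W}, y0 (Sum.inl v) := by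
    rw [← Finset.sum_coe_sort]
    refine Finset.sum_congr rfl fun v _ => ?_
    simp only [hu]
    rw [dif_pos v.2]
  have hzS : ∑ p, z p = ∑ p : {p : Fin n × Fin n // p.1 ≠ p.2 ∧ p.1 ∈ W ∧ p.2 ∈ W},
      y0 (Sum.inr p) :=
    sum_dite_sub (fun p : Fin n × Fin n => p.1 ≠ p.2 ∧ p.1 ∈ W ∧ p.2 ∈ W)
      (fun p => y0 (Sum.inr p))
  have huz : ∑ v ∈ W, u v + ∑ p, z p = τ := by rw [huS, hzS]; exact hsum
  have hzn : 0 ≤ ∑ p, z p := Finset.sum_nonneg fun p _ => hz0 p
  have hun : 0 ≤ ∑ v ∈ W, u v := Finset.sum_nonneg fun p _ => hu0 p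
  refine ⟨fun v => u v / (1 - θ), univ.filter (fun p => κ * θ / (k : ℝ) ^ 2 < z p), ?_, ?_, ?_,
    ?_, ?_⟩
  · intro v
    exact div_nonneg (hu0 v) hθ1.le
  · rw [← Finset.sum_div, div_le_iff₀ hθ1]
    have h1 : (1 - θ) * ∑ v ∈ W, u v ≤ m := by
      refine le_trans ?_ hτm
      exact mul_le_mul_of_nonneg_left (by linarith) hθ1.le
    -- ∑ u ≤ (1+η) m (1-θ)
    have h2 : ∑ v ∈ W, u v ≤ (1 + η) * ((1 - θ) * (1 - θ)) * ∑ v ∈ W, u v := by
      nlinarith [mul_nonneg (by linarith : (0 : ℝ) ≤ (1 + η) * ((1 - θ) * (1 - θ)) - 1) hun]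
    have h3 : (1 + η) * ((1 - θ) * (1 - θ)) * ∑ v ∈ W, u v =
        (1 + η) * (1 - θ) * ((1 - θ) * ∑ v ∈ W, u v) := by ring
    have h4 : (1 + η) * (1 - θ) * ((1 - θ) * ∑ v ∈ W, u v) ≤ (1 + η) * (1 - θ) * m :=
      mul_le_mul_of_nonneg_left h1 (by positivity)
    calc ∑ v ∈ W, u v ≤ (1 + η) * (1 - θ) * m := by rw [h3] at h2; exact h2.trans h4
      _ = (1 + η) * m * (1 - θ) := by ring
  · -- number of heavy pairs
    have h1 : ((univ.filter (fun p => κ * θ / (k : ℝ) ^ 2 < z p)).card : ℝ) *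
        (κ * θ / (k : ℝ) ^ 2) ≤ W.card := by
      calc _ = ∑ p ∈ univ.filter (fun p => κ * θ / (k : ℝ) ^ 2 < z p), (κ * θ / (k : ℝ) ^ 2) := by
            rw [Finset.sum_const, nsmul_eq_mul]
        _ ≤ ∑ p ∈ univ.filter (fun p => κ * θ / (k : ℝ) ^ 2 < z p), z p :=
            Finset.sum_le_sum fun p hp => (Finset.mem_filter.mp hp).2.le
        _ ≤ ∑ p, z p := Finset.sum_le_sum_of_subset_of_nonneg (Finset.filter_subset _ _)
            fun p _ _ => hz0 p
        _ ≤ τ := by linarith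
        _ ≤ W.card := hτW
    rw [← le_div_iff₀ hh] at h1
    refine h1.trans (le_of_eq ?_)
    field_simp
  · intro p hp
    have h1 := (Finset.mem_filter.mp hp).2
    by_contra hcon
    simp only [hz] at h1
    rw [dif_neg hcon] at h1
    exact absurd h1 (not_lt.mpr hh.le)
  · intro e he
    by_cases hex : ∃ p ∈ univ.filter (fun p => κ * θ / (k : ℝ) ^ 2 < z p), p.1 ∈ e ∧ p.2 ∈ e
    · exact Or.inl hex
    · right
      push Not at hex
      have hc := hcov' ⟨e, he⟩
      have h1 : ∑ v : {v // v ∈ W}, y0 (Sum.inl v) * (if v.1 ∈ e then (1 : ℝ) else 0) =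
          ∑ v ∈ e, u v := by
        have h2 : ∑ v : {v // v ∈ W}, y0 (Sum.inl v) * (if v.1 ∈ e then (1 : ℝ) else 0) =
            ∑ v ∈ W, (if v ∈ e then u v else 0) := by
          rw [← Finset.sum_coe_sort W]
          refine Finset.sum_congr rfl fun v _ => ?_
          simp only [hu]
          rw [dif_pos v.2]
          split_ifs <;> simp
        rw [h2, ← Finset.sum_filter]
        refine Finset.sum_congr ?_ fun _ _ => rfl
        ext v
        rw [Finset.mem_filter]
        exact ⟨fun h => h.2, fun h => ⟨hsub e he h, h⟩⟩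
      have h2 : ∑ p : {p : Fin n × Fin n // p.1 ≠ p.2 ∧ p.1 ∈ W ∧ p.2 ∈ W},
          y0 (Sum.inr p) * (if p.1.1 ∈ e ∧ p.1.2 ∈ e then 1 / κ else 0) ≤ θ := by
        calc _ = ∑ p : Fin n × Fin n, z p * (if p.1 ∈ e ∧ p.2 ∈ e then 1 / κ else 0) := by
              rw [← sum_dite_sub (fun p : Fin n × Fin n => p.1 ≠ p.2 ∧ p.1 ∈ W ∧ p.2 ∈ W)
                (fun p => y0 (Sum.inr p) * (if p.1.1 ∈ e ∧ p.1.2 ∈ e then 1 / κ else 0))]
              refine Finset.sum_congr rfl fun p _ => ?_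
              simp only [hz]
              by_cases h : p.1 ≠ p.2 ∧ p.1 ∈ W ∧ p.2 ∈ W
              · rw [dif_pos h, dif_pos h]
              · rw [dif_neg h, dif_neg h, zero_mul]
          _ ≤ ∑ p : Fin n × Fin n, (if p ∈ e ×ˢ e then θ / (k : ℝ) ^ 2 else 0) := by
              refine Finset.sum_le_sum fun p _ => ?_
              by_cases h : p.1 ∈ e ∧ p.2 ∈ e
              · rw [if_pos h, if_pos (Finset.mem_product.mpr h)]
                have h3 : z p ≤ κ * θ / (k : ℝ) ^ 2 := by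
                  by_contra hcon
                  exact hex p (Finset.mem_filter.mpr ⟨Finset.mem_univ _, not_le.mp hcon⟩) h.1 h.2
                calc z p * (1 / κ) ≤ κ * θ / (k : ℝ) ^ 2 * (1 / κ) :=
                      mul_le_mul_of_nonneg_right h3 (by positivity)
                  _ = θ / (k : ℝ) ^ 2 := by field_simp
              · rw [if_neg h, if_neg (fun h' => h (Finset.mem_product.mp h'))]
                simp
          _ = θ := by
              rw [Finset.sum_ite_mem, Finset.univ_inter, Finset.sum_const, Finset.card_product,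
                hcard e he, nsmul_eq_mul, Nat.cast_mul]
              field_simp
      have h3 : 1 - θ ≤ ∑ v ∈ e, u v := by
        have h4 : (1 : ℝ) ≤ ∑ v ∈ e, u v + θ := by
          calc (1 : ℝ) ≤ _ := hc
            _ ≤ _ := add_le_add h1.le h2
        linarith
      change 1 ≤ ∑ v ∈ e, u v / (1 - θ)
      rw [← Finset.sum_div, le_div_iff₀ hθ1, one_mul]
      exact h3

end Pool.Agent.W253.EM.LPD
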