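import Pool.Agent.W253.EM.LPD
import Pool.Agent.H115R4.All
import Pool.Agent.W358.CF156

/-!
# EM-LPD: the hypotheses discharged
-/

set_option autoImplicit false

namespace Pool.Agent.W253.EM.LPD

theorem main : Pool.Agent.W455.EM.S_LPD := lpd_of H115R4.nibble_T Pool.Agent.W358.CF.t_S1

end Pool.Agent.W253.EM.LPD
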